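import Pool.Agent.Y229.MS.Stm
import Pool.Agent.W417.MT.Free

/-!
# MS-TWO: one more free coefficient
-/

set_option autoImplicit false

namespace Pool.Agent.Y812.MS

open MvPolynomial
open Pool.Agent.W428.MOT Pool.Agent.W375.MT
open Pool.Agent.Y229.MS

variable {K : Type} [Field K] {n : ℕ}

/-- the last coefficients -/
def Fl (n N : ℕ) : Finset (Fin n × Fin (N + 1 + 1)) :=
  Finset.univ.filter fun p => (p.2 : ℕ) = N + 1

theorem card_Fl (n N : ℕ) : (Fl n N).card = n := by
  have h : Fl n N = (Finset.univ : Finset (Fin n)) ×ˢ {Fin.last (N + 1)} := by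
    ext ⟨a, b⟩
    simp [Fl, Fin.ext_iff, eq_comm]
  rw [h, Finset.card_product, Finset.card_singleton, Finset.card_univ, Fintype.card_fin, mul_one]

theorem constr_Tl (f : MvPolynomial (Fin n) K) {W : Set (Pt K (Fin n))} (hW : Constr W)
    (i N : ℕ) : Constr (Tl f W i N) := by
  unfold Tl
  refine Constr.and (hW.preimage _ fun i => IsPF.coord _) (Constr.allLt _ fun j _ => ?_)
  exact Constr.eqz (IsPA.aeval (fun i z => arc z i) (fun i => isPA_arc i) f j)

/-- restriction -/
def rsl {N : ℕ} (z : Pt K (Fin n × Fin (N + 1 + 1))) : Pt K (Fin n × Fin (N + 1)) :=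
  fun p => z (p.1, ⟨p.2, by have := p.2.2; omega⟩)

/-- extension by zero -/
noncomputable def exl {N : ℕ} (z : Pt K (Fin n × Fin (N + 1))) :
    Pt K (Fin n × Fin (N + 1 + 1)) :=
  fun p => if h : (p.2 : ℕ) < N + 1 then z (p.1, ⟨p.2, h⟩) else 0

theorem tl_free (f : MvPolynomial (Fin n) K) (W : Set (Pt K (Fin n))) (i N : ℕ) (hi : i ≤ N + 1)
    (z w : Pt K (Fin n × Fin (N + 1 + 1))) (h : ∀ p, p ∉ Fl n N → w p = z p)
    (hz : z ∈ Tl f W i (N + 1)) : w ∈ Tl f W i (N + 1) := by
  obtain ⟨h1, h2⟩ := hz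
  have h4 : ∀ j ≤ N, PowerSeries.coeff j (aeval (arc w) f) =
      PowerSeries.coeff j (aeval (arc z) f) := by
    refine coeff_aeval_congr f N (arc w) (arc z) ?_
    intro i k hk
    rw [coeff_arc _ _ _ (by omega), coeff_arc _ _ _ (by omega)]
    exact h _ (by simp only [Fl, Finset.mem_filter, Finset.mem_univ, true_and]; omega)
  refine ⟨?_, fun j hj => ?_⟩
  · have : (fun i => w (i, 0)) = fun i => z (i, 0) := by
      funext i
      exact h (i, 0) (by simp [Fl])
    rw [this]
    exact h1
  · rw [h4 j (by omega)]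
    exact h2 j hj

theorem tl_eq {R : Type} [CommRing R] (M : Meas K R) (f : MvPolynomial (Fin n) K)
    {W : Set (Pt K (Fin n))} (hW : Constr W) (i N : ℕ) (hi : i ≤ N + 1) :
    M.χ _ (Tl f W i (N + 1) ∩ {z | ∀ p ∈ Fl n N, z p = 0}) = M.χ _ (Tl f W i N) := by
  refine M.iso _ _ ((constr_Tl f hW i (N + 1)).inter (Constr.ballFinset _ fun p _ =>
    Constr.eqz (IsPF.coord _))) (constr_Tl f hW i N) rsl exl
    (regularOn_poly (fun p => IsPF.coord _) _) (regularOn_poly (fun p => ?_) _) ?_ ?_ ?_ ?_
  · unfold exl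
    by_cases h : (p.2 : ℕ) < N + 1
    · simp only [dif_pos h]
      exact IsPF.coord _
    · simp only [dif_neg h]
      exact IsPF.zero
  · rintro z ⟨⟨h1, h2⟩, h3⟩
    have h4 : ∀ j ≤ N, PowerSeries.coeff j (aeval (arc (rsl z)) f) =
        PowerSeries.coeff j (aeval (arc z) f) := by
      refine coeff_aeval_congr f N (arc (rsl z)) (arc z) ?_
      intro i k hk
      rw [coeff_arc _ _ _ (by omega), coeff_arc _ _ _ (by omega)]
      rfl
    refine ⟨h1, fun j hj => ?_⟩
    rw [h4 j (by omega)]
    exact h2 j hj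
  · rintro z ⟨h1, h2⟩
    have h4 : ∀ j ≤ N, PowerSeries.coeff j (aeval (arc (exl z)) f) =
        PowerSeries.coeff j (aeval (arc z) f) := by
      refine coeff_aeval_congr f N (arc (exl z)) (arc z) ?_
      intro i k hk
      rw [coeff_arc _ _ _ (by omega), coeff_arc _ _ _ (by omega)]
      simp only [exl]
      rw [dif_pos (by omega)]
    refine ⟨⟨h1, fun j hj => ?_⟩, ?_⟩
    · rw [h4 j (by omega)]
      exact h2 j hj
    · intro p hp
      simp only [Fl, Finset.mem_filter, Finset.mem_univ, true_and] at hp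
      simp only [exl]
      rw [dif_neg (by omega)]
  · rintro z ⟨-, h3⟩
    funext p
    simp only [exl, rsl]
    split_ifs with h
    · rfl
    · exact (h3 p (by
        have := p.2.2
        simp only [Fl, Finset.mem_filter, Finset.mem_univ, true_and]; omega)).symm
  · rintro z -
    funext p
    simp only [exl, rsl]
    rw [dif_pos p.2.2]

/-- (TWO) one more coefficient -/
theorem two : TaskTWO := by
  classical
  intro K _ R _ M n f W hW i N hi
  have e1 := Pool.Agent.W417.MT.Free.main M (Tl f W i (N + 1)) ∅ (Fl n N) (fun _ => 0)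
    (Finset.disjoint_empty_left _) (constr_Tl f hW i (N + 1))
    (fun z w h hz => tl_free f W i N hi z w (fun p hp => h p (by simp) hp) hz)
  simp only [Finset.notMem_empty, false_implies, implies_true, Set.ofPred_true, Set.inter_univ,
    Finset.empty_union, map_zero, Finset.card_empty, pow_zero, mul_one] at e1
  rw [card_Fl, tl_eq M f hW i N hi] at e1
  exact e1

end Pool.Agent.Y812.MS
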